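import Pool.Agent.H937.QS.Stm

/-!
# The multiplication matrices commute (task QS-COMM)
-/

set_option autoImplicit false

open scoped Matrix TensorProduct
open Pool.Agent.H937.QS
universe u
namespace Pool.Agent.H183.QS.COMM

section

variable {S : Type u} [CommRing S]

theorem comm12 (a : Fin 12 → S) :
    F1 (tt a) (pp a) * F2 (tt a) (pp a) = F2 (tt a) (pp a) * F1 (tt a) (pp a) := by
  ext i j
  rw [Matrix.mul_apply, Matrix.mul_apply, Fin.sum_univ_four, Fin.sum_univ_four]
  fin_cases i <;> fin_cases j <;>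
  simp only [F1, F2, tt, pp, qq, Matrix.of_apply, Matrix.cons_val, Fin.zero_eta, Fin.mk_one,
    Fin.reduceFinMk] <;> ring

theorem comm13 (a : Fin 12 → S) :
    F1 (tt a) (pp a) * F3 (tt a) (pp a) = F3 (tt a) (pp a) * F1 (tt a) (pp a) := by
  ext i j
  rw [Matrix.mul_apply, Matrix.mul_apply, Fin.sum_univ_four, Fin.sum_univ_four]
  fin_cases i <;> fin_cases j <;>
  simp only [F1, F3, tt, pp, qq, Matrix.of_apply, Matrix.cons_val, Fin.zero_eta, Fin.mk_one,
    Fin.reduceFinMk] <;> ring

theorem comm23 (a : Fin 12 → S) :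
    F2 (tt a) (pp a) * F3 (tt a) (pp a) = F3 (tt a) (pp a) * F2 (tt a) (pp a) := by
  ext i j
  rw [Matrix.mul_apply, Matrix.mul_apply, Fin.sum_univ_four, Fin.sum_univ_four]
  fin_cases i <;> fin_cases j <;>
  simp only [F2, F3, tt, pp, qq, Matrix.of_apply, Matrix.cons_val, Fin.zero_eta, Fin.mk_one,
    Fin.reduceFinMk] <;> ring

end

theorem t_COMM : S_COMM.{u} := by
  intro S _ a
  have h0 : DF a 0 = 1 := rfl
  have h1 : DF a 1 = F1 (tt a) (pp a) := rfl
  have h2 : DF a 2 = F2 (tt a) (pp a) := rfl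
  have h3 : DF a 3 = F3 (tt a) (pp a) := rfl
  refine ⟨fun i j => ?_, fun i m => ?_⟩
  · have hi : i = 0 ∨ i = 1 ∨ i = 2 ∨ i = 3 := by omega
    have hj : j = 0 ∨ j = 1 ∨ j = 2 ∨ j = 3 := by omega
    rcases hi with rfl | rfl | rfl | rfl
    · rw [h0, one_mul, mul_one]
    · rcases hj with rfl | rfl | rfl | rfl
      · rw [h0, one_mul, mul_one]
      · rfl
      · rw [h1, h2, comm12]
      · rw [h1, h3, comm13]
    · rcases hj with rfl | rfl | rfl | rfl
      · rw [h0, one_mul, mul_one]
      · rw [h1, h2, comm12]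
      · rfl
      · rw [h2, h3, comm23]
    · rcases hj with rfl | rfl | rfl | rfl
      · rw [h0, one_mul, mul_one]
      · rw [h1, h3, comm13]
      · rw [h2, h3, comm23]
      · rfl
  · have hi : i = 0 ∨ i = 1 ∨ i = 2 ∨ i = 3 := by omega
    have hm : m = 0 ∨ m = 1 ∨ m = 2 ∨ m = 3 := by omega
    rcases hi with rfl | rfl | rfl | rfl
    · rw [h0, Matrix.one_apply]
    · rw [h1]
      rcases hm with rfl | rfl | rfl | rfl
      · rw [if_neg (by decide)]
        rfl
      · rw [if_pos rfl]
        rfl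
      · rw [if_neg (by decide)]
        rfl
      · rw [if_neg (by decide)]
        rfl
    · rw [h2]
      rcases hm with rfl | rfl | rfl | rfl
      · rw [if_neg (by decide)]
        rfl
      · rw [if_neg (by decide)]
        rfl
      · rw [if_pos rfl]
        rfl
      · rw [if_neg (by decide)]
        rfl
    · rw [h3]
      rcases hm with rfl | rfl | rfl | rfl
      · rw [if_neg (by decide)]
        rfl
      · rw [if_neg (by decide)]
        rfl
      · rw [if_neg (by decide)]
        rfl
      · rw [if_pos rfl]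
        rfl

end Pool.Agent.H183.QS.COMM
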