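import Pool.Agent.H937.QS.Stm2

/-!
# Products of two alternants are symmetric functions (task QS-TRC)
-/

set_option autoImplicit false

open scoped Matrix TensorProduct
open Pool.Agent.H937.QS
universe u
namespace Pool.Agent.H183.QS.TRC

section

variable {k B M : Type u} [Field k] [CommRing B] [Algebra k B] [Field M] [Algebra k M]

theorem trace_mem {n : ℕ} (ev : B →ₐ[k] (Fin n → M)) (b : B) : ∑ q, ev b q ∈ Esym k ev := by
  rcases Nat.eq_zero_or_pos n with h0 | h0
  · subst h0
    rw [Fin.sum_univ_zero]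
    exact Subalgebra.zero_mem _
  · have h1 := Polynomial.prod_X_sub_C_coeff_card_pred (Finset.univ : Finset (Fin n))
      (fun q => ev b q) (by rw [Finset.card_univ, Fintype.card_fin]; exact h0)
    have h2 : (∏ q, (Polynomial.X - Polynomial.C (ev b q))).coeff
        ((Finset.univ : Finset (Fin n)).card - 1) ∈ Esym k ev :=
      Algebra.subset_adjoin ⟨b, _, rfl⟩
    rw [h1] at h2
    have h3 := Subalgebra.neg_mem _ h2
    rw [neg_neg] at h3
    exact h3

theorem det_mem {n : ℕ} (E : Subalgebra k M) (A : Matrix (Fin n) (Fin n) M)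
    (h : ∀ i j, A i j ∈ E) : A.det ∈ E := by
  rw [Matrix.det_apply']
  refine E.sum_mem fun σ _ => E.mul_mem ?_ (E.prod_mem fun i _ => h _ _)
  exact intCast_mem E _

theorem det_mul_mem {n : ℕ} (ev : B →ₐ[k] (Fin n → M)) (m m' : Fin n → B) :
    (Matrix.of fun q i => ev (m i) q).det * (Matrix.of fun q i => ev (m' i) q).det ∈
      Esym k ev := by
  rw [← Matrix.det_transpose (Matrix.of fun q i => ev (m i) q), ← Matrix.det_mul]
  refine det_mem _ _ fun i j => ?_
  have h1 : ((Matrix.of fun q i => ev (m i) q)ᵀ * (Matrix.of fun q i => ev (m' i) q)) i j =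
      ∑ q, ev (m i * m' j) q := by
    rw [Matrix.mul_apply]
    refine Finset.sum_congr rfl fun q _ => ?_
    rw [map_mul]
    rfl
  rw [h1]
  exact trace_mem ev _

theorem pL_mem (E : Subalgebra k M) (s : Fin 3 → Fin 3 → Fin 4 → M)
    (h : ∀ i j m, s i j m ∈ E) (X : Fin 15) : pL s X ∈ E := by
  have h2 : ∀ x ∈ E, 2 * x ∈ E := fun x hx => by
    rw [two_mul]
    exact E.add_mem hx hx
  fin_cases X
  · exact neg_mem (h 0 0 3)
  · exact h 0 0 2
  · exact neg_mem (h 0 1 3)
  · exact sub_mem (h 0 1 2) (h 0 2 3)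
  · exact h 0 2 2
  · exact sub_mem (sub_mem (h2 _ (h 0 1 2)) (h 0 0 1)) (sub_mem (h 0 1 2) (h 0 2 3))
  · exact neg_mem (h 1 1 3)
  · exact add_mem (sub_mem (h 1 1 2) (h2 _ (h 0 1 1))) (sub_mem (h 0 1 1) (h 1 2 3))
  · exact sub_mem (h 1 2 2) (h 0 2 1)
  · exact sub_mem (h 0 1 1) (h 1 2 3)
  · exact add_mem (sub_mem (sub_mem (h 1 2 2) (h 0 2 1)) (h 2 2 3)) (h2 _ (h 0 2 1))
  · exact h 2 2 2
  · exact neg_mem (h 1 1 1)
  · exact neg_mem (h 1 2 1)
  · exact neg_mem (h 2 2 1)

theorem pL_mul (c : M) (s : Fin 3 → Fin 3 → Fin 4 → M) (X : Fin 15) :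
    c * pL s X = pL (fun i j m => c * s i j m) X := by
  fin_cases X <;>
  simp only [pL, Matrix.cons_val, Fin.zero_eta, Fin.mk_one, Fin.reduceFinMk] <;> ring

end

theorem t_TRC : S_TRC.{u} := by
  intro k B M _ _ _ _ _
  refine ⟨fun n ev m m' => det_mul_mem ev m m', fun ev m x y z X => ?_⟩
  unfold Lam
  rw [pL_mul]
  refine pL_mem _ _ (fun i j l => ?_) X
  have h1 : ∀ q i, cols (ev x) (ev y) (ev z) q i = ev (![1, x, y, z] i) q := by
    intro q i
    fin_cases i
    · show (1 : M) = ev 1 q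
      rw [map_one]
      rfl
    · rfl
    · rfl
    · rfl
  have h2 : dsc (cols (ev x) (ev y) (ev z)) i j l = (Matrix.of fun q r =>
      ev (Function.update ![1, x, y, z] l (![1, x, y, z] i.succ * ![1, x, y, z] j.succ) r) q).det := by
    unfold dsc
    congr 1
    ext q r
    rw [Matrix.updateCol_apply, Matrix.of_apply]
    by_cases hr : r = l
    · rw [if_pos hr, hr, Function.update_self, map_mul, h1, h1]
      rfl
    · rw [if_neg hr, Function.update_of_ne hr, h1]
  rw [h2]
  exact det_mul_mem ev m _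

end Pool.Agent.H183.QS.TRC
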